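import Pool.Agent.KS6_87.Inv4.Main
import Pool.Agent.KS6_87.Inv4.Obst
import Pool.Agent.KS6_87.Inv4.Cpt
import Pool.Agent.KS6_87.Inv4.Unimod

set_option autoImplicit false

open scoped InnerProductSpace
open Cardinal

namespace Pool.Agent.Results.MP_b9c098_an.FourInvolutions

universe u

/-- `A` is a product of `m` involutions. -/
def IsProd {H : Type u} [NormedAddCommGroup H] [InnerProductSpace ℂ H] (m : ℕ)
    (A : H →L[ℂ] H) : Prop :=
  ∃ L : List (H →L[ℂ] H), L.length = m ∧ (∀ T ∈ L, T * T = 1) ∧ A = L.prod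

/-- `K` is negligible with respect to the cardinal `κ`: for every `ε > 0` there is a set `s` of
fewer than `κ` vectors such that `‖K x‖ ≤ ε ‖x‖` for all `x` orthogonal to `s`. -/
def IsNegligible {H : Type u} [NormedAddCommGroup H] [InnerProductSpace ℂ H]
    (κ : Cardinal.{u}) (K : H →L[ℂ] H) : Prop :=
  ∀ ε : ℝ, 0 < ε → ∃ s : Set H, #s < κ ∧ ∀ x : H, (∀ v ∈ s, ⟪v, x⟫_ℂ = 0) → ‖K x‖ ≤ ε * ‖x‖

theorem isProd_four {H : Type u} [NormedAddCommGroup H] [InnerProductSpace ℂ H]
    (A : H →L[ℂ] H) : IsProd 4 A ↔ Pool.Agent.H100R3.Inv.I4 A := by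
  constructor
  · rintro ⟨L, hL, hT, rfl⟩
    match L, hL, hT with
    | [a, b, c, d], _, hT =>
      refine ⟨a, b, c, d, hT a (by simp), hT b (by simp), hT c (by simp), hT d (by simp), ?_⟩
      simp [mul_assoc]
  · rintro ⟨a, b, c, d, ha, hb, hc, hd, rfl⟩
    refine ⟨[a, b, c, d], rfl, ?_, by simp [mul_assoc]⟩
    intro T hT
    simp only [List.mem_cons, List.not_mem_nil, or_false] at hT
    rcases hT with rfl | rfl | rfl | rfl <;> assumption

theorem isProd_isUnit {H : Type u} [NormedAddCommGroup H] [InnerProductSpace ℂ H] {m : ℕ}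
    {A : H →L[ℂ] H} (h : IsProd m A) : IsUnit A := by
  obtain ⟨L, -, hT, rfl⟩ := h
  induction L with
  | nil => simp
  | cons a L ih =>
    rw [List.prod_cons]
    exact (show IsUnit a from ⟨⟨a, a, hT a (by simp), hT a (by simp)⟩, rfl⟩).mul
      (ih fun T h => hT T (by simp [h]))

/-- **Products of four involutions.** Let `H` be an infinite-dimensional complex Hilbert space.

(1) The invertible operators are exactly the products of five involutions.

(2) Let `b` be a Hilbert basis of `H` with index set `ι`. An operator `A` is a product of four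
involutions if and only if it is invertible and not of the form `α + K` with `|α| ≠ 1` and
`K` negligible.

(3) Let `H` be separable. An operator `A` is a product of four involutions if and only if it is
invertible and not of the form `α + K` with `|α| ≠ 1` and `K` compact. -/
theorem result (H : Type u) [NormedAddCommGroup H] [InnerProductSpace ℂ H] [CompleteSpace H]
    (hH : ¬ FiniteDimensional ℂ H) :
    (∀ A : H →L[ℂ] H, IsUnit A ↔ IsProd 5 A) ∧
    (∀ (ι : Type u) (_ : HilbertBasis ι ℂ H) (A : H →L[ℂ] H),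
      IsProd 4 A ↔ IsUnit A ∧ ∀ α : ℂ, IsNegligible #ι (A - α • 1) → ‖α‖ = 1) ∧
    (TopologicalSpace.SeparableSpace H → ∀ A : H →L[ℂ] H,
      IsProd 4 A ↔ IsUnit A ∧ ∀ α : ℂ, IsCompactOperator (A - α • 1 : H →L[ℂ] H) → ‖α‖ = 1) := by
  have key : ∀ (ι : Type u) (_ : HilbertBasis ι ℂ H) (A : H →L[ℂ] H),
      IsProd 4 A ↔ IsUnit A ∧ ∀ α : ℂ, IsNegligible #ι (A - α • 1) → ‖α‖ = 1 := by
    intro ι b A
    constructor
    · intro h4
      refine ⟨isProd_isUnit h4, fun α h => ?_⟩
      by_contra hα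
      rw [isProd_four] at h4
      exact Pool.Agent.KS6_87.Inv4.obst b hH _ α hα h h4
    · rintro ⟨⟨u, rfl⟩, h⟩
      rw [isProd_four]
      by_cases hA : ∀ α : ℂ, ¬ IsNegligible #ι ((u : H →L[ℂ] H) - α • 1)
      · exact Pool.Agent.KS6_87.Inv4.four_of_not_scalar b hH u.val u.inv u.val_inv u.inv_val hA
      · push Not at hA
        obtain ⟨α, hα⟩ := hA
        exact Pool.Agent.KS6_87.Inv4.unimod b hH u.val u.inv u.val_inv u.inv_val α (h α hα) hα
  refine ⟨fun A => ⟨?_, isProd_isUnit⟩, key, fun hsep => ?_⟩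
  · rintro ⟨u, rfl⟩
    obtain ⟨T, P, Q, P', Q', t, p, q, p', q', h⟩ :=
      Pool.Agent.H100R3.Inv.five hH u.val u.inv u.val_inv u.inv_val
    refine ⟨[T, P, Q, P', Q'], rfl, ?_, by simpa [mul_assoc] using h⟩
    intro R hR
    simp only [List.mem_cons, List.not_mem_nil, or_false] at hR
    rcases hR with rfl | rfl | rfl | rfl | rfl <;> assumption
  · obtain ⟨w, b, -⟩ := exists_hilbertBasis ℂ H
    have hinf : Infinite w := Pool.Agent.H100R3.Inv.infinite_index b hH
    have hcount : Countable w := Pool.Agent.KS6_87.Inv4.countable_of_separable b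
    intro A
    have e : ∀ α : ℂ, IsNegligible #w (A - α • 1) ↔ IsCompactOperator (A - α • 1 : H →L[ℂ] H) :=
      fun α => Pool.Agent.KS6_87.Inv4.negl_iff_compact b _
    rw [key w b A]
    simp only [e]

end Pool.Agent.Results.MP_b9c098_an.FourInvolutions
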